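import Mathlib
import Pool.Agent.KS6_70.RC.UnivLim
set_option autoImplicit false

/-! # MP_b30443_co: the growth rate `λ_{k,p}` governs all finite subsets of vector spaces over `F_p`

Definitions (in `Pool.Agent.KS6_70.RC.Base` and `UnivLim`), for a finite set `F ⊆ F_p^n`:
* `APFree k A`: if `x, x + y, …, x + (k-1) y ∈ A` then `y = 0`;
* `r k F`: the largest size of a subset of `F` with `APFree k`; `r k univ` is `r_k(F_p^n)`;
* `Colourable k F c`: some colouring with `c` colours has no monochromatic nontrivial `k`-term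
  progression inside `F`; `chi k F` is the least such `c`;
* `rmin k p N`: the least `r k F` over all `n` and all `F ⊆ F_p^n` with `N` points;
* `cmax k p N`: the least `c` such that all `F ⊆ F_p^n` with `N` points, for all `n`, are
  `Colourable k F c`. -/

namespace Pool.Agent.Results.MP_b30443_co.EveryFiniteSet

open Pool.Agent.KS6_70.RC Finset Filter Topology

theorem result (p k : ℕ) [Fact p.Prime] (hk : 3 ≤ k) (_hkp : k ≤ p) :
    ∃ lam : ℝ, 1 ≤ lam ∧ lam ≤ p ∧
      -- `lam` is the limit of `r_k(F_p^n)^{1/n}`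
      Tendsto (fun n : ℕ => (r k (univ : Finset (Fin n → ZMod p)) : ℝ) ^ (1 / (n : ℝ)))
        atTop (𝓝 lam) ∧
      -- every set with at most `p^m / 2` points, in any dimension `n`
      (∀ (m n : ℕ) (F : Finset (Fin n → ZMod p)), 2 * F.card ≤ p ^ m →
        F.card * r k (univ : Finset (Fin m → ZMod p)) ≤ 2 * p ^ m * r k F ∧
        ∀ t : ℕ, F.card < 2 ^ t →
          chi k F ≤ t * chi k (univ : Finset (Fin m → ZMod p)) + 1) ∧
      -- the least `r k F` over all sets with `N` points
      (∀ N : ℕ, IsLeast {m : ℕ | ∃ (n : ℕ) (F : Finset (Fin n → ZMod p)),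
        F.card = N ∧ r k F = m} (rmin k p N)) ∧
      -- it is attained by whole spaces up to the factor `4 p`
      (∀ N : ℕ, 1 ≤ N →
        rmin k p N ≤ r k (univ : Finset (Fin (Nat.clog p N) → ZMod p)) ∧
        r k (univ : Finset (Fin (Nat.clog p N) → ZMod p)) ≤ 4 * p * rmin k p N) ∧
      -- the exponent of the least `r k F`
      Tendsto (fun N : ℕ => Real.log (rmin k p N) / Real.log N) atTop
        (𝓝 (Real.log lam / Real.log p)) ∧
      -- the number of colours that suffices for all sets with `N` points, and its exponent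
      (∀ N : ℕ, IsLeast {c : ℕ | ∀ (n : ℕ) (F : Finset (Fin n → ZMod p)),
        F.card = N → Colourable k F c} (cmax k p N)) ∧
      Tendsto (fun N : ℕ => Real.log (cmax k p N) / Real.log N) atTop
        (𝓝 (1 - Real.log lam / Real.log p)) := by
  have hk2 : 2 ≤ k := by omega
  have hp : p.Prime := Fact.out
  have hp0 : (0 : ℝ) < p := by exact_mod_cast hp.pos
  obtain ⟨L, hL, hLn⟩ := exists_lim (k := k) (p := p) hk2
  have hL0 : 0 ≤ L := by
    refine ge_of_tendsto' hL fun n => ?_
    refine div_nonneg (Real.log_nonneg ?_) (Nat.cast_nonneg n)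
    exact_mod_cast one_le_ru hk2 n
  have hLp : L ≤ Real.log p := by
    refine le_of_tendsto hL ?_
    filter_upwards [eventually_gt_atTop 0] with n hn
    have hn' : (0 : ℝ) < n := by exact_mod_cast hn
    rw [div_le_iff₀ hn']
    have hr : (0 : ℝ) < ru k p n := by exact_mod_cast one_le_ru hk2 n
    have h2 : Real.log (ru k p n) ≤ Real.log ((p : ℝ) ^ n) := by
      apply Real.log_le_log hr
      exact_mod_cast ru_le n
    rw [Real.log_pow] at h2
    linarith
  refine ⟨Real.exp L, Real.one_le_exp hL0, ?_, ?_, ?_, ?_, ?_, ?_, ?_, ?_⟩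
  · rw [← Real.le_log_iff_exp_le hp0]
    exact hLp
  · refine rpow_of_log (Eventually.of_forall fun n => ?_) hL
    exact_mod_cast one_le_ru hk2 n
  · intro m n F hF
    exact ⟨universal hk2 F hF, fun t ht => chi_le (colour_log hk2 t F ht hF)⟩
  · intro N
    refine ⟨rmin_spec N, ?_⟩
    rintro m ⟨n, F, rfl, rfl⟩
    exact rmin_le_r F
  · intro N hN
    exact rmin_const hk2 hN
  · rw [Real.log_exp, div_eq_mul_inv]
    exact rmin_lim hk2 hL
  · intro N
    exact ⟨cmax_spec hk2 N, fun c hc => Nat.sInf_le hc⟩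
  · rw [Real.log_exp, div_eq_mul_inv]
    exact cmax_lim hk2 hL

end Pool.Agent.Results.MP_b30443_co.EveryFiniteSet
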