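import Mathlib
import Pool.Agent.KS6_70.RC.ExcLim
set_option autoImplicit false

/-! # MP_b30443_co: progressions with few differences do not change the growth rate

Definitions (in `Pool.Agent.KS6_70.RC.Base`, `Exc` and `ExcLim`):
* `r k univ` is `r_k(F_p^n)` (`APFree k A`: if `x, x + y, …, x + (k-1) y ∈ A` then `y = 0`);
* `APOnly k E A`: if `y ≠ 0` and `x, x + y, …, x + (k-1) y ∈ A` then `y ∈ E`;
* `rex k p n N`: the largest size of an `A ⊆ F_p^n` with `APOnly k E A` for some set `E` of at most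
  `N` nonzero vectors;
* `rE k E`: the largest size of an `A` with `APOnly k E A`. -/

namespace Pool.Agent.Results.MP_b30443_co.ExceptionalDifferences

open Pool.Agent.KS6_70.RC Finset Filter Topology

theorem result (p k : ℕ) [Fact p.Prime] (hk : 3 ≤ k) (_hkp : k ≤ p) :
    -- the upper bound
    (∀ n m : ℕ, m ≤ n → ∀ E A : Finset (Fin n → ZMod p), 0 ∉ E → E.card < p ^ m →
      APOnly k E A → A.card ≤ p ^ m * r k (univ : Finset (Fin (n - m) → ZMod p))) ∧
    -- it is attained by the nonzero vectors of a subspace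
    (∀ n d : ℕ, d ≤ n → ∃ (V : Submodule (ZMod p) (Fin n → ZMod p))
      (E A : Finset (Fin n → ZMod p)), Module.finrank (ZMod p) V = d ∧
        (∀ y, y ∈ E ↔ y ∈ V ∧ y ≠ 0) ∧ E.card = p ^ d - 1 ∧ APOnly k E A ∧
        A.card = p ^ d * r k (univ : Finset (Fin (n - d) → ZMod p))) ∧
    -- the exact extremal value
    (∀ n d : ℕ, d ≤ n →
      rex k p n (p ^ d - 1) = p ^ d * r k (univ : Finset (Fin (n - d) → ZMod p))) ∧
    ∃ lam : ℝ, 1 ≤ lam ∧ lam ≤ p ∧
      Tendsto (fun n : ℕ => (r k (univ : Finset (Fin n → ZMod p)) : ℝ) ^ (1 / (n : ℝ)))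
        atTop (𝓝 lam) ∧
      -- the growth rate with `p^(ε n)` exceptional differences
      (∀ (N : ℕ → ℕ) (ε : ℝ), (∀ n, N n < p ^ n) →
        Tendsto (fun n : ℕ => ((N n : ℝ) + 1) ^ (1 / (n : ℝ))) atTop (𝓝 ((p : ℝ) ^ ε)) →
        Tendsto (fun n : ℕ => (rex k p n (N n) : ℝ) ^ (1 / (n : ℝ))) atTop
          (𝓝 ((p : ℝ) ^ ε * lam ^ (1 - ε)))) ∧
      -- `p^(o(n))` exceptional differences do not change the growth rate
      ∀ E : ∀ n : ℕ, Finset (Fin n → ZMod p), (∀ n, 0 ∉ E n) →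
        Tendsto (fun n : ℕ => (((E n).card : ℝ) + 1) ^ (1 / (n : ℝ))) atTop (𝓝 1) →
        Tendsto (fun n : ℕ => (rE k (E n) : ℝ) ^ (1 / (n : ℝ))) atTop (𝓝 lam) := by
  have hk2 : 2 ≤ k := by omega
  have hk1 : 1 ≤ k := by omega
  have hp : p.Prime := Fact.out
  have hp0 : (0 : ℝ) < p := by exact_mod_cast hp.pos
  refine ⟨fun n m hmn E A h0 hE hA => exc_upper hk1 hmn h0 hE hA, ?_, ?_, ?_⟩
  · intro n d hd
    obtain ⟨j, rfl⟩ := Nat.exists_eq_add_of_le' hd
    rw [Nat.add_sub_cancel]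
    exact exc_lower hk1 j d
  · intro n d hd
    have hpd : 1 ≤ p ^ d := Nat.one_le_pow _ _ hp.pos
    exact le_antisymm (rex_le hk1 hd (by omega)) (le_rex' hk1 hd (by omega))
  obtain ⟨L, hL, hLn⟩ := exists_lim (k := k) (p := p) hk2
  have hL0 : 0 ≤ L := by
    refine ge_of_tendsto' hL fun n => ?_
    refine div_nonneg (Real.log_nonneg ?_) (Nat.cast_nonneg n)
    exact_mod_cast one_le_ru hk2 n
  have hLp : L ≤ Real.log p := by
    refine le_of_tendsto hL ?_
    filter_upwards [eventually_gt_atTop 0] with n hn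
    have hn' : (0 : ℝ) < n := by exact_mod_cast hn
    rw [div_le_iff₀ hn']
    have hr : (0 : ℝ) < ru k p n := by exact_mod_cast one_le_ru hk2 n
    have h2 : Real.log (ru k p n) ≤ Real.log ((p : ℝ) ^ n) := by
      apply Real.log_le_log hr
      exact_mod_cast ru_le n
    rw [Real.log_pow] at h2
    linarith
  refine ⟨Real.exp L, Real.one_le_exp hL0, ?_, ?_, ?_, ?_⟩
  · rw [← Real.le_log_iff_exp_le hp0]
    exact hLp
  · refine rpow_of_log (Eventually.of_forall fun n => ?_) hL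
    exact_mod_cast one_le_ru hk2 n
  · intro N ε hN h
    have hpe : (0 : ℝ) < (p : ℝ) ^ ε := Real.rpow_pos_of_pos hp0 ε
    have h1 := (log_of_rpow (fun n => by positivity) hpe h).2
    rw [Real.log_rpow hp0] at h1
    have h2 := rex_lim hk2 hL hN h1
    have h3 := rpow_of_log (Eventually.of_forall fun n => by exact_mod_cast one_le_rex hk2 n (N n)) h2
    have e : (p : ℝ) ^ ε * Real.exp L ^ (1 - ε) = Real.exp (ε * Real.log p + (1 - ε) * L) := by
      rw [Real.rpow_def_of_pos hp0, ← Real.exp_mul, ← Real.exp_add]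
      congr 1
      ring
    rw [e]
    exact h3
  · intro E h0 h
    have h1 := (log_of_rpow (fun n => by positivity) one_pos h).2
    rw [Real.log_one] at h1
    refine rpow_of_log (Eventually.of_forall fun n => ?_) (rE_lim hk2 hL E h0 h1)
    exact_mod_cast (one_le_ru hk2 n).trans (ru_le_rE hk1 (E n))

end Pool.Agent.Results.MP_b30443_co.ExceptionalDifferences
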