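import Mathlib
import Pool.Agent.KS6_70.RC.Graphs
set_option autoImplicit false

/-! # MP_b30443_co: the growth rate `λ_{k,p}` is attained by graphs of functions

Definitions (in `Pool.Agent.KS6_70.RC.Base` and `Graphs`):
* `APFree k A`: if `x, x + y, …, x + (k-1) y ∈ A` then `y = 0`; `r k univ` is `r_k(F_p^n)`;
* `Nonflat k f`, for `f : F_p^m → F_p^s`: for all `x` and all `y ≠ 0` the values
  `f x, f (x + y), …, f (x + (k-1) y)` are not of the form `u, u + v, …, u + (k-1) v`;
* `codim k p m`: the least `s` for which there is a `Nonflat` map `F_p^m → F_p^s`;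
* `chi k univ`: the least number of colours of a colouring of `F_p^m` without monochromatic
  nontrivial `k`-term progressions. -/

namespace Pool.Agent.Results.MP_b30443_co.GraphsOfFunctions

open Pool.Agent.KS6_70.RC Finset Filter Topology

theorem result (p k : ℕ) [Fact p.Prime] (hk : 3 ≤ k) (hkp : k ≤ p) :
    -- `f` is `Nonflat` iff its graph in `F_p^(m+s)` contains no nontrivial progression
    (∀ (m s : ℕ) (f : (Fin m → ZMod p) → (Fin s → ZMod p)),
      APFree k (univ.image fun x : Fin m → ZMod p =>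
        (Fin.append x (f x) : Fin (m + s) → ZMod p)) ↔ Nonflat k f) ∧
    (∀ m : ℕ, IsLeast {s : ℕ | ∃ f : (Fin m → ZMod p) → (Fin s → ZMod p), Nonflat k f}
      (codim k p m)) ∧
    -- maps from colourings
    (∀ m s : ℕ, chi k (univ : Finset (Fin m → ZMod p)) ≤ r k (univ : Finset (Fin s → ZMod p)) →
      codim k p m ≤ s) ∧
    ∃ lam : ℝ, 2 ≤ lam ∧ lam ≤ p ∧
      Tendsto (fun n : ℕ => (r k (univ : Finset (Fin n → ZMod p)) : ℝ) ^ (1 / (n : ℝ)))
        atTop (𝓝 lam) ∧
      (∀ m : ℕ, (p : ℝ) ^ m ≤ lam ^ (m + codim k p m)) ∧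
      Tendsto (fun m : ℕ => (codim k p m : ℝ) / m) atTop
        (𝓝 (Real.log p / Real.log lam - 1)) := by
  have hk2 : 2 ≤ k := by omega
  have hp : p.Prime := Fact.out
  have hp0 : (0 : ℝ) < p := by exact_mod_cast hp.pos
  refine ⟨fun m s f => graph_iff hk2 f, ?_, fun m s h => codim_le hk2 h, ?_⟩
  · intro m
    exact ⟨codim_spec hk hkp m, fun s hs => Nat.sInf_le hs⟩
  obtain ⟨L, hL, hLn⟩ := exists_lim (k := k) (p := p) hk2
  have hLp : L ≤ Real.log p := by
    refine le_of_tendsto hL ?_
    filter_upwards [eventually_gt_atTop 0] with n hn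
    have hn' : (0 : ℝ) < n := by exact_mod_cast hn
    rw [div_le_iff₀ hn']
    have hr : (0 : ℝ) < ru k p n := by exact_mod_cast one_le_ru hk2 n
    have h2 : Real.log (ru k p n) ≤ Real.log ((p : ℝ) ^ n) := by
      apply Real.log_le_log hr
      exact_mod_cast ru_le n
    rw [Real.log_pow] at h2
    linarith
  refine ⟨Real.exp L, ?_, ?_, ?_, ?_, ?_⟩
  · rw [← Real.log_le_iff_le_exp (by norm_num)]
    exact log_two_le hk hkp hLn
  · rw [← Real.le_log_iff_exp_le hp0]
    exact hLp
  · refine rpow_of_log (Eventually.of_forall fun n => ?_) hL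
    exact_mod_cast one_le_ru hk2 n
  · intro m
    have h1 : ((p : ℝ) ^ m) ≤ r k (univ : Finset (Fin (m + codim k p m) → ZMod p)) := by
      exact_mod_cast le_codim hk hkp m
    have hr : (0 : ℝ) < ru k p (m + codim k p m) := by exact_mod_cast one_le_ru hk2 _
    refine h1.trans ?_
    rw [← Real.exp_nat_mul, ← Real.log_le_iff_le_exp hr]
    exact hLn _
  · rw [Real.log_exp]
    exact codim_lim hk hkp hL hLn hLp

end Pool.Agent.Results.MP_b30443_co.GraphsOfFunctions
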