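import Mathlib
import Pool.Agent.KS6_70.RC.Limit
set_option autoImplicit false

/-! # MP_b30443_co: the growth rate `λ_{k,p}` is determined by the multicolour Ramsey numbers

Definitions (in `Pool.Agent.KS6_70.RC.Base`), for a finite set `F ⊆ F_p^n` (`F_p^n` itself is
`univ : Finset (Fin n → ZMod p)`):
* `APFree k A`: if `x, x + y, …, x + (k-1) y ∈ A` then `y = 0`;
* `r k F`: the largest size of a subset of `F` with `APFree k`; `r k univ` is `r_k(F_p^n)`;
* `Colourable k F c`: some colouring with `c` colours has no monochromatic nontrivial `k`-term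
  progression inside `F`;
* `chi k F`: the least such `c`;
* `ram k p c`: the least `n` such that every colouring of `F_p^n` with `c` colours has a
  monochromatic nontrivial `k`-term progression. -/

namespace Pool.Agent.Results.MP_b30443_co.RamseyRate

open Pool.Agent.KS6_70.RC Finset Filter Topology

theorem result (p k : ℕ) [Fact p.Prime] (hk : 3 ≤ k) (_hkp : k ≤ p) :
    ∃ lam : ℝ, 1 ≤ lam ∧ lam ≤ p ∧
      -- `lam` is the limit of `r_k(F_p^n)^{1/n}`
      Tendsto (fun n : ℕ => (r k (univ : Finset (Fin n → ZMod p)) : ℝ) ^ (1 / (n : ℝ)))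
        atTop (𝓝 lam) ∧
      (∀ n : ℕ, (r k (univ : Finset (Fin n → ZMod p)) : ℝ) ≤ lam ^ n) ∧
      -- colourings of `F_p^n`
      (∀ n : ℕ, p ^ n ≤ chi k (univ : Finset (Fin n → ZMod p)) *
          r k (univ : Finset (Fin n → ZMod p)) ∧
        (chi k (univ : Finset (Fin n → ZMod p)) : ℝ) ≤
          (p : ℝ) ^ n / r k (univ : Finset (Fin n → ZMod p)) * (n * Real.log p) + 1) ∧
      Tendsto (fun n : ℕ => (chi k (univ : Finset (Fin n → ZMod p)) : ℝ) ^ (1 / (n : ℝ)))
        atTop (𝓝 (p / lam)) ∧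
      -- the Ramsey numbers
      (∀ c : ℕ, ¬ Colourable k (univ : Finset (Fin (ram k p c) → ZMod p)) c ∧
        ∀ n < ram k p c, Colourable k (univ : Finset (Fin n → ZMod p)) c) ∧
      (∀ c : ℕ, 1 ≤ c → ((ram k p c : ℝ) - 1) * Real.log (p / lam) ≤ Real.log c) ∧
      Tendsto (fun c : ℕ => Real.log c / ram k p c) atTop (𝓝 (Real.log (p / lam))) ∧
      (((fun c : ℕ => (ram k p c : ℝ)) =O[atTop] fun c : ℕ => Real.log c) ↔ lam < p) := by
  have hk2 : 2 ≤ k := by omega
  have hp : p.Prime := Fact.out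
  have hp0 : (0 : ℝ) < p := by exact_mod_cast hp.pos
  obtain ⟨L, hL, hLn⟩ := exists_lim (k := k) (p := p) hk2
  have hL0 : 0 ≤ L := by
    refine ge_of_tendsto' hL fun n => ?_
    refine div_nonneg (Real.log_nonneg ?_) (Nat.cast_nonneg n)
    exact_mod_cast one_le_ru hk2 n
  have hLp : L ≤ Real.log p := by
    refine le_of_tendsto hL ?_
    filter_upwards [eventually_gt_atTop 0] with n hn
    have hn' : (0 : ℝ) < n := by exact_mod_cast hn
    rw [div_le_iff₀ hn']
    have hr : (0 : ℝ) < ru k p n := by exact_mod_cast one_le_ru hk2 n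
    have h2 : Real.log (ru k p n) ≤ Real.log ((p : ℝ) ^ n) := by
      apply Real.log_le_log hr
      exact_mod_cast ru_le n
    rw [Real.log_pow] at h2
    linarith
  have hpe : (p : ℝ) / Real.exp L = Real.exp (Real.log p - L) := by
    rw [Real.exp_sub, Real.exp_log hp0]
  have hlogpe : Real.log ((p : ℝ) / Real.exp L) = Real.log p - L := by
    rw [hpe, Real.log_exp]
  have hcu := cu_lim (k := k) (p := p) hk2 hL
  have hram := ram_lim (k := k) (p := p) hk2 hcu
  refine ⟨Real.exp L, Real.one_le_exp hL0, ?_, ?_, ?_, ?_, ?_, ?_, ?_, ?_, ?_⟩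
  · rw [← Real.le_log_iff_exp_le hp0]
    exact hLp
  · refine rpow_of_log (Eventually.of_forall fun n => ?_) hL
    exact_mod_cast one_le_ru hk2 n
  · intro n
    have hr : (0 : ℝ) < ru k p n := by exact_mod_cast one_le_ru hk2 n
    rw [← Real.exp_nat_mul, ← Real.log_le_iff_le_exp hr]
    exact hLn n
  · intro n
    refine ⟨?_, chi_upper hk2⟩
    have := le_chi_mul hk2 (univ : Finset (Fin n → ZMod p))
    rwa [Finset.card_univ, card_space] at this
  · rw [hpe]
    refine rpow_of_log (Eventually.of_forall fun n => ?_) hcu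
    have h5 := le_chi_mul hk2 (univ : Finset (Fin n → ZMod p))
    rw [Finset.card_univ, card_space] at h5
    have h6 : 0 < p ^ n := Nat.pow_pos hp.pos
    have : 0 < chi k (univ : Finset (Fin n → ZMod p)) := by
      rcases Nat.eq_zero_or_pos (chi k (univ : Finset (Fin n → ZMod p))) with h | h
      · rw [h] at h5; omega
      · exact h
    exact_mod_cast this
  · intro c
    exact ⟨ram_spec c, fun n hn => lt_ram hn⟩
  · intro c hc
    rw [hlogpe]
    exact ram_le hk2 hLn hc
  · rw [hlogpe]
    exact hram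
  · rw [ram_bigO hk2 hram, sub_pos,
      Real.lt_log_iff_exp_lt hp0]

end Pool.Agent.Results.MP_b30443_co.RamseyRate
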